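import Mathlib
import Pool.Agent.helper68.SF.SpecJ

/-!
Project SF (MP_d52931_gt), module BR: the weight of a word depends only on its last four letters.
-/

set_option autoImplicit false

namespace SF

open Set

theorem BR_suf (l w s : List Bool) (h : l.length ≤ s.length) : l <:+ w ++ s ↔ l <:+ s := by
  constructor
  · intro h1
    exact List.suffix_of_suffix_length_le h1 (List.suffix_append w s) h
  · intro h1
    exact h1.trans (List.suffix_append w s)

theorem BR_psi0_append (w s : List Bool) (h : 4 ≤ s.length) : psi0 (w ++ s) = psi0 s := by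
  have e1 := BR_suf [true, false, false] w s (by simp; omega)
  have e2 := BR_suf [true, false, false, false] w s (by simpa using h)
  have e3 := BR_suf [false, true, false] w s (by simp; omega)
  have e4 := BR_suf [false, true, true] w s (by simp; omega)
  have e5 := BR_suf [false, true, true, true] w s (by simpa using h)
  have e6 := BR_suf [true, false, true] w s (by simp; omega)
  unfold psi0
  simp only [e1, e2, e3, e4, e5, e6]

theorem BR_bs_append (w s : List Bool) : ∀ x, bs (w ++ s) x = bs s (bs w x) := by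
  induction w with
  | nil => intro x; rfl
  | cons a w ih =>
    intro x
    cases a
    · exact ih _
    · exact ih _

theorem BR_bw_append (w s : List Bool) : bw (w ++ s) = bs s (bw w) := BR_bs_append w s _

/-- the weight may be computed with any complement -/
theorem BR_XX (hPJ : PJ_stmt) (hMG : MG_stmt) (v : ℤ × ℤ) (hv : v ∈ Pv) (h1 : 0 < v.1)
    (a b : ℤ) (h : dt (a, b) v = 1) :
    psi (XX v 0 1) = psi (((a : ℝ) * v.1 + b * v.2) / ((v.1 : ℝ) ^ 2 + (v.2 : ℝ) ^ 2)) := by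
  obtain ⟨n, hn⟩ := hMG.2.1 v hv a b h
  have ha : a = Int.gcdB v.1 v.2 + n * v.1 := by
    have := congrArg Prod.fst hn
    simpa [cpl] using this
  have hb : b = -Int.gcdA v.1 v.2 + n * v.2 := by
    have := congrArg Prod.snd hn
    simpa [cpl] using this
  have hpos : 0 < (v.1 : ℝ) ^ 2 + (v.2 : ℝ) ^ 2 := by
    have : (0 : ℝ) < v.1 := by exact_mod_cast h1
    positivity
  rw [← hPJ.2.1 (XX v 0 1) n]
  congr 1
  rw [ha, hb]
  unfold XX Xr
  push_cast
  have h2 : ((v.1 : ℝ) * 0 + v.2) ^ 2 + ((v.1 : ℝ) * 1) ^ 2 = (v.1 : ℝ) ^ 2 + (v.2 : ℝ) ^ 2 := by ring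
  rw [h2]
  field_simp
  ring

theorem BR_val (X1 X2 M1 M2 lo hi : ℝ) (hM1 : 0 < M1) (hM2 : 0 < M2)
    (hdet : X1 * M2 - X2 * M1 = 1) (h1 : lo * M2 ≤ X2) (h2 : X1 ≤ hi * M1) :
    lo < (X1 * M1 + X2 * M2) / (M1 ^ 2 + M2 ^ 2) ∧
      (X1 * M1 + X2 * M2) / (M1 ^ 2 + M2 ^ 2) < hi := by
  have hpos : 0 < M1 ^ 2 + M2 ^ 2 := by positivity
  have e1 : lo * M1 < X1 := by
    have h3 : lo * M2 * M1 ≤ X2 * M1 := mul_le_mul_of_nonneg_right h1 hM1.le
    have h4 : (lo * M1) * M2 < X1 * M2 := by nlinarith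
    exact lt_of_mul_lt_mul_right h4 hM2.le
  have e2 : X2 < hi * M2 := by
    have h3 : X1 * M2 ≤ hi * M1 * M2 := mul_le_mul_of_nonneg_right h2 hM2.le
    have h4 : X2 * M1 < (hi * M2) * M1 := by nlinarith
    exact lt_of_mul_lt_mul_right h4 hM1.le
  rw [lt_div_iff₀ hpos, div_lt_iff₀ hpos]
  constructor
  · nlinarith [mul_lt_mul_of_pos_right e1 hM1, mul_le_mul_of_nonneg_right h1 hM2.le]
  · nlinarith [mul_lt_mul_of_pos_right e2 hM2, mul_le_mul_of_nonneg_right h2 hM1.le]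

theorem BR_fract (x : ℝ) (h0 : 0 < x) (h1 : x < 1) : Int.fract x = x :=
  Int.fract_eq_self.2 ⟨h0.le, h1⟩

theorem BR_psi0a (x : ℝ) (h0 : 0 < x) (h1 : x < 1 / 5) : psi x = 0 := by
  unfold psi c5
  simp only [BR_fract x h0 (by linarith)]
  rw [Real.sign_of_neg (by linarith : x - 1 / 5 < 0), Real.sign_of_neg (by linarith : x - 2 / 5 < 0),
    Real.sign_of_neg (by linarith : x - 3 / 5 < 0), Real.sign_of_neg (by linarith : x - 4 / 5 < 0)]
  norm_num

theorem BR_psi1 (x : ℝ) (h0 : 1 / 5 < x) (h1 : x < 2 / 5) : psi x = 1 := by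
  unfold psi c5
  simp only [BR_fract x (by linarith) (by linarith)]
  rw [Real.sign_of_pos (by linarith : 0 < x - 1 / 5), Real.sign_of_neg (by linarith : x - 2 / 5 < 0),
    Real.sign_of_neg (by linarith : x - 3 / 5 < 0), Real.sign_of_neg (by linarith : x - 4 / 5 < 0)]
  norm_num

theorem BR_psi0b (x : ℝ) (h0 : 2 / 5 < x) (h1 : x < 3 / 5) : psi x = 0 := by
  unfold psi c5
  simp only [BR_fract x (by linarith) (by linarith)]
  rw [Real.sign_of_pos (by linarith : 0 < x - 1 / 5), Real.sign_of_pos (by linarith : 0 < x - 2 / 5),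
    Real.sign_of_neg (by linarith : x - 3 / 5 < 0), Real.sign_of_neg (by linarith : x - 4 / 5 < 0)]
  norm_num

theorem BR_psim (x : ℝ) (h0 : 3 / 5 < x) (h1 : x < 4 / 5) : psi x = -1 := by
  unfold psi c5
  simp only [BR_fract x (by linarith) (by linarith)]
  rw [Real.sign_of_pos (by linarith : 0 < x - 1 / 5), Real.sign_of_pos (by linarith : 0 < x - 2 / 5),
    Real.sign_of_pos (by linarith : 0 < x - 3 / 5), Real.sign_of_neg (by linarith : x - 4 / 5 < 0)]
  norm_num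

theorem BR_psi0c (x : ℝ) (h0 : 4 / 5 < x) (h1 : x < 1) : psi x = 0 := by
  unfold psi c5
  simp only [BR_fract x (by linarith) h1]
  rw [Real.sign_of_pos (by linarith : 0 < x - 1 / 5), Real.sign_of_pos (by linarith : 0 < x - 2 / 5),
    Real.sign_of_pos (by linarith : 0 < x - 3 / 5), Real.sign_of_pos (by linarith : 0 < x - 4 / 5)]
  norm_num

/-- the value at a word from the bounds for the complement -/
theorem BR_pw (hBW : BW_stmt) (hPJ : PJ_stmt) (hMG : MG_stmt) (w : List Bool) (lo hi : ℝ)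
    (h1 : lo * ((md w).2 : ℝ) ≤ ((bw w).1.2 : ℝ)) (h2 : ((bw w).1.1 : ℝ) ≤ hi * ((md w).1 : ℝ)) :
    ∃ x : ℝ, lo < x ∧ x < hi ∧ pw w = psi x := by
  obtain ⟨hA, -, hC⟩ := hBW
  have hv : md w ∈ Pv ∧ 0 < (md w).1 ∧ 0 < (md w).2 := hC.mapsTo (mem_univ w)
  obtain ⟨hv, hp1, hp2⟩ := hv
  have hd0 := (hA w).2.2.2.2.1
  have hd : dt ((bw w).1.1, (bw w).1.2) (md w) = 1 := by
    rw [← hd0]
    unfold dt md
    simp only [Prod.fst_add, Prod.snd_add]
    ring
  have hM1 : (0 : ℝ) < (md w).1 := by exact_mod_cast hp1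
  have hM2 : (0 : ℝ) < (md w).2 := by exact_mod_cast hp2
  have hdet : ((bw w).1.1 : ℝ) * (md w).2 - ((bw w).1.2 : ℝ) * (md w).1 = 1 := by
    have : (bw w).1.1 * (md w).2 - (bw w).1.2 * (md w).1 = 1 := hd
    exact_mod_cast this
  obtain ⟨e1, e2⟩ := BR_val _ _ _ _ lo hi hM1 hM2 hdet h1 h2
  refine ⟨_, e1, e2, ?_⟩
  unfold pw
  rw [BR_XX hPJ hMG (md w) hv hp1 _ _ hd]

/-- the bounds follow from the coefficients -/
theorem BR_bd (hBW : BW_stmt) (w s : List Bool) (lo hi : ℝ)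
    (h : ∀ U V : ℤ × ℤ, 0 ≤ (U.1 : ℝ) → 0 ≤ (U.2 : ℝ) → 0 ≤ (V.1 : ℝ) → 0 ≤ (V.2 : ℝ) →
      lo * (((bs s (U, V)).1 + (bs s (U, V)).2).2 : ℝ) ≤ ((bs s (U, V)).1.2 : ℝ) ∧
      ((bs s (U, V)).1.1 : ℝ) ≤ hi * (((bs s (U, V)).1 + (bs s (U, V)).2).1 : ℝ)) :
    lo * ((md (w ++ s)).2 : ℝ) ≤ ((bw (w ++ s)).1.2 : ℝ) ∧
      ((bw (w ++ s)).1.1 : ℝ) ≤ hi * ((md (w ++ s)).1 : ℝ) := by
  obtain ⟨a1, a2, a3, a4, -⟩ := hBW.1 w
  have := h (bw w).1 (bw w).2 (by exact_mod_cast a1) (by exact_mod_cast a2) (by exact_mod_cast a3)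
    (by exact_mod_cast a4)
  unfold md
  rw [BR_bw_append]
  exact this

theorem BR_four (w : List Bool) (h : 4 ≤ w.length) :
    ∃ (w0 : List Bool) (a b c d : Bool), w = w0 ++ [a, b, c, d] := by
  have h1 : w = w.take (w.length - 4) ++ w.drop (w.length - 4) := (List.take_append_drop _ w).symm
  have h2 : (w.drop (w.length - 4)).length = 4 := by rw [List.length_drop]; omega
  obtain ⟨a, b, c, d, h3⟩ : ∃ a b c d, w.drop (w.length - 4) = [a, b, c, d] := by
    match hw : w.drop (w.length - 4), h2 with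
    | [a, b, c, d], _ => exact ⟨a, b, c, d, rfl⟩
  exact ⟨w.take (w.length - 4), a, b, c, d, by rw [← h3]; exact h1⟩

theorem BR_z (s : List Bool) (h1 : ¬ ([true, false, false] <:+ s ∨ [true, false, false, false] <:+ s ∨
    [false, true, false] <:+ s)) (h2 : ¬ ([false, true, true] <:+ s ∨ [false, true, true, true] <:+ s ∨
    [true, false, true] <:+ s)) : psi0 s = 0 := by
  unfold psi0
  rw [if_neg h1, if_neg h2]

theorem BR_p (s : List Bool) (h1 : [true, false, false] <:+ s ∨ [true, false, false, false] <:+ s ∨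
    [false, true, false] <:+ s) : psi0 s = 1 := by
  unfold psi0
  rw [if_pos h1]

theorem BR_m (s : List Bool) (h1 : ¬ ([true, false, false] <:+ s ∨ [true, false, false, false] <:+ s ∨
    [false, true, false] <:+ s)) (h2 : [false, true, true] <:+ s ∨ [false, true, true, true] <:+ s ∨
    [true, false, true] <:+ s) : psi0 s = -1 := by
  unfold psi0
  rw [if_neg h1, if_pos h2]

theorem BR_z0 (hBW : BW_stmt) (hPJ : PJ_stmt) (hMG : MG_stmt) (w s : List Bool) (hs : s.length = 4)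
    (lo hi c : ℝ) (hc : ∀ x, lo < x → x < hi → psi x = c) (h0 : psi0 s = -c)
    (h : ∀ U V : ℤ × ℤ, 0 ≤ (U.1 : ℝ) → 0 ≤ (U.2 : ℝ) → 0 ≤ (V.1 : ℝ) → 0 ≤ (V.2 : ℝ) →
      lo * (((bs s (U, V)).1 + (bs s (U, V)).2).2 : ℝ) ≤ ((bs s (U, V)).1.2 : ℝ) ∧
      ((bs s (U, V)).1.1 : ℝ) ≤ hi * (((bs s (U, V)).1 + (bs s (U, V)).2).1 : ℝ)) :
    pw (w ++ s) = -psi0 (w ++ s) := by
  obtain ⟨e1, e2⟩ := BR_bd hBW w s lo hi h
  obtain ⟨x, hx1, hx2, hx⟩ := BR_pw hBW hPJ hMG (w ++ s) lo hi e1 e2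
  rw [hx, hc x hx1 hx2, BR_psi0_append w s (by omega), h0]
  ring

theorem BR_main (hBW : BW_stmt) (hPJ : PJ_stmt) (hMG : MG_stmt) (w : List Bool)
    (hw : 4 ≤ w.length) : pw w = -psi0 w := by
  obtain ⟨w0, a, b, c, d, rfl⟩ := BR_four w hw
  cases a <;> cases b <;> cases c <;> cases d
  -- FFFF
  · refine BR_z0 hBW hPJ hMG w0 _ rfl (4 / 5) 1 0 BR_psi0c ?_ ?_
    · rw [BR_z _ (by decide) (by decide)]; norm_num
    · intro U V h1 h2 h3 h4
      simp only [bs, Prod.fst_add, Prod.snd_add]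
      push_cast
      constructor <;> linarith
  -- FFFT
  · refine BR_z0 hBW hPJ hMG w0 _ rfl (2 / 5) (3 / 5) 0 BR_psi0b ?_ ?_
    · rw [BR_z _ (by decide) (by decide)]; norm_num
    · intro U V h1 h2 h3 h4
      simp only [bs, Prod.fst_add, Prod.snd_add]
      push_cast
      constructor <;> linarith
  -- FFTF
  · refine BR_z0 hBW hPJ hMG w0 _ rfl (3 / 5) (4 / 5) (-1) BR_psim ?_ ?_
    · rw [BR_p _ (by decide)]; norm_num
    · intro U V h1 h2 h3 h4
      simp only [bs, Prod.fst_add, Prod.snd_add]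
      push_cast
      constructor <;> linarith
  -- FFTT
  · refine BR_z0 hBW hPJ hMG w0 _ rfl (1 / 5) (2 / 5) 1 BR_psi1 ?_ ?_
    · rw [BR_m _ (by decide) (by decide)]
    · intro U V h1 h2 h3 h4
      simp only [bs, Prod.fst_add, Prod.snd_add]
      push_cast
      constructor <;> linarith
  -- FTFF
  · refine BR_z0 hBW hPJ hMG w0 _ rfl (3 / 5) (4 / 5) (-1) BR_psim ?_ ?_
    · rw [BR_p _ (by decide)]; norm_num
    · intro U V h1 h2 h3 h4
      simp only [bs, Prod.fst_add, Prod.snd_add]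
      push_cast
      constructor <;> linarith
  -- FTFT
  · refine BR_z0 hBW hPJ hMG w0 _ rfl (1 / 5) (2 / 5) 1 BR_psi1 ?_ ?_
    · rw [BR_m _ (by decide) (by decide)]
    · intro U V h1 h2 h3 h4
      simp only [bs, Prod.fst_add, Prod.snd_add]
      push_cast
      constructor <;> linarith
  -- FTTF
  · refine BR_z0 hBW hPJ hMG w0 _ rfl (2 / 5) (3 / 5) 0 BR_psi0b ?_ ?_
    · rw [BR_z _ (by decide) (by decide)]; norm_num
    · intro U V h1 h2 h3 h4
      simp only [bs, Prod.fst_add, Prod.snd_add]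
      push_cast
      constructor <;> linarith
  -- FTTT
  · refine BR_z0 hBW hPJ hMG w0 _ rfl (1 / 5) (2 / 5) 1 BR_psi1 ?_ ?_
    · rw [BR_m _ (by decide) (by decide)]
    · intro U V h1 h2 h3 h4
      simp only [bs, Prod.fst_add, Prod.snd_add]
      push_cast
      constructor <;> linarith
  -- TFFF
  · refine BR_z0 hBW hPJ hMG w0 _ rfl (3 / 5) (4 / 5) (-1) BR_psim ?_ ?_
    · rw [BR_p _ (by decide)]; norm_num
    · intro U V h1 h2 h3 h4
      simp only [bs, Prod.fst_add, Prod.snd_add]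
      push_cast
      constructor <;> linarith
  -- TFFT
  · refine BR_z0 hBW hPJ hMG w0 _ rfl (2 / 5) (3 / 5) 0 BR_psi0b ?_ ?_
    · rw [BR_z _ (by decide) (by decide)]; norm_num
    · intro U V h1 h2 h3 h4
      simp only [bs, Prod.fst_add, Prod.snd_add]
      push_cast
      constructor <;> linarith
  -- TFTF
  · refine BR_z0 hBW hPJ hMG w0 _ rfl (3 / 5) (4 / 5) (-1) BR_psim ?_ ?_
    · rw [BR_p _ (by decide)]; norm_num
    · intro U V h1 h2 h3 h4
      simp only [bs, Prod.fst_add, Prod.snd_add]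
      push_cast
      constructor <;> linarith
  -- TFTT
  · refine BR_z0 hBW hPJ hMG w0 _ rfl (1 / 5) (2 / 5) 1 BR_psi1 ?_ ?_
    · rw [BR_m _ (by decide) (by decide)]
    · intro U V h1 h2 h3 h4
      simp only [bs, Prod.fst_add, Prod.snd_add]
      push_cast
      constructor <;> linarith
  -- TTFF
  · refine BR_z0 hBW hPJ hMG w0 _ rfl (3 / 5) (4 / 5) (-1) BR_psim ?_ ?_
    · rw [BR_p _ (by decide)]; norm_num
    · intro U V h1 h2 h3 h4
      simp only [bs, Prod.fst_add, Prod.snd_add]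
      push_cast
      constructor <;> linarith
  -- TTFT
  · refine BR_z0 hBW hPJ hMG w0 _ rfl (1 / 5) (2 / 5) 1 BR_psi1 ?_ ?_
    · rw [BR_m _ (by decide) (by decide)]
    · intro U V h1 h2 h3 h4
      simp only [bs, Prod.fst_add, Prod.snd_add]
      push_cast
      constructor <;> linarith
  -- TTTF
  · refine BR_z0 hBW hPJ hMG w0 _ rfl (2 / 5) (3 / 5) 0 BR_psi0b ?_ ?_
    · rw [BR_z _ (by decide) (by decide)]; norm_num
    · intro U V h1 h2 h3 h4
      simp only [bs, Prod.fst_add, Prod.snd_add]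
      push_cast
      constructor <;> linarith
  -- TTTT
  · refine BR_z0 hBW hPJ hMG w0 _ rfl 0 (1 / 5) 0 BR_psi0a ?_ ?_
    · rw [BR_z _ (by decide) (by decide)]; norm_num
    · intro U V h1 h2 h3 h4
      simp only [bs, Prod.fst_add, Prod.snd_add]
      push_cast
      constructor <;> linarith

theorem BR (hBW : BW_stmt) (hPJ : PJ_stmt) (hMG : MG_stmt) : BR_stmt := by
  refine ⟨BR_main hBW hPJ hMG, ?_, ?_⟩
  · intro w
    refine ⟨hPJ.2.2.1 _, ?_⟩
    unfold psi0
    split_ifs <;> norm_num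
  · intro w w' h
    have h1 := BR_psi0_append w w' h
    refine ⟨h1, ?_⟩
    rw [BR_main hBW hPJ hMG (w ++ w') (by rw [List.length_append]; omega),
      BR_main hBW hPJ hMG w' h, h1]

end SF
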