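import Mathlib
import Pool.Agent.helper68.SF.SpecW

/-!
Project SF (MP_d52931_gt), module PSB: the sum of a family of the class `Cl` is smooth and can be
differentiated term by term.
-/

set_option autoImplicit false

namespace SF

open scoped ContDiff

theorem PSB_isOpen : IsOpen HH := by
  have h : HH = (fun p : ℝ × ℝ × ℝ => p.2.2) ⁻¹' Set.Ioi 0 := rfl
  rw [h]
  exact isOpen_Ioi.preimage (by fun_prop)

theorem PSB_sumC (C : ℝ) : Summable (fun k : ℤ => C / (1 + (k : ℝ) ^ 2)) := by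
  have h1 : Summable (fun k : ℤ => 1 / ((k : ℝ)) ^ 2) := by
    have := (Real.summable_one_div_int_pow (p := 2)).2 (by norm_num)
    exact this
  have h2 : Summable (fun k : ℤ => 1 / (1 + (k : ℝ) ^ 2)) := by
    refine Summable.of_norm_bounded_eventually h1 ?_
    rw [Filter.eventually_cofinite]
    refine (Set.finite_singleton (0 : ℤ)).subset ?_
    intro k hk
    by_contra hne
    apply hk
    have hk0 : (k : ℝ) ≠ 0 := by exact_mod_cast hne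
    have hkp : 0 < (k : ℝ) ^ 2 := by positivity
    rw [Real.norm_of_nonneg (by positivity)]
    apply one_div_le_one_div_of_le hkp
    linarith
  simpa [div_eq_mul_inv] using h2.mul_left C

theorem PSB_norm (L : (ℝ × ℝ × ℝ) →L[ℝ] ℝ) :
    ‖L‖ ≤ |L (1, 0, 0)| + |L (0, 1, 0)| + |L (0, 0, 1)| := by
  refine ContinuousLinearMap.opNorm_le_bound _ (by positivity) ?_
  rintro ⟨a, b, c⟩
  have hd : ((a, b, c) : ℝ × ℝ × ℝ) = a • ((1, 0, 0) : ℝ × ℝ × ℝ) + b • ((0, 1, 0) : ℝ × ℝ × ℝ) +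
      c • ((0, 0, 1) : ℝ × ℝ × ℝ) := by
    ext <;> simp
  have hL : L (a, b, c) = a * L (1, 0, 0) + b * L (0, 1, 0) + c * L (0, 0, 1) := by
    conv_lhs => rw [hd]
    simp only [map_add, map_smul, smul_eq_mul]
  have ha : |a| ≤ ‖((a, b, c) : ℝ × ℝ × ℝ)‖ := by
    simp
  have hbc : ‖((b, c) : ℝ × ℝ)‖ ≤ ‖((a, b, c) : ℝ × ℝ × ℝ)‖ := norm_snd_le ((a, b, c) : ℝ × ℝ × ℝ)
  have hb : |b| ≤ ‖((a, b, c) : ℝ × ℝ × ℝ)‖ :=
    (by simp : |b| ≤ ‖((b, c) : ℝ × ℝ)‖).trans hbc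
  have hc : |c| ≤ ‖((a, b, c) : ℝ × ℝ × ℝ)‖ :=
    (by simp : |c| ≤ ‖((b, c) : ℝ × ℝ)‖).trans hbc
  rw [hL, Real.norm_eq_abs]
  set M := ‖((a, b, c) : ℝ × ℝ × ℝ)‖ with hM
  calc |a * L (1, 0, 0) + b * L (0, 1, 0) + c * L (0, 0, 1)|
      ≤ |a * L (1, 0, 0) + b * L (0, 1, 0)| + |c * L (0, 0, 1)| := abs_add_le _ _
    _ ≤ |a * L (1, 0, 0)| + |b * L (0, 1, 0)| + |c * L (0, 0, 1)| := by
        gcongr; exact abs_add_le _ _
    _ = |a| * |L (1, 0, 0)| + |b| * |L (0, 1, 0)| + |c| * |L (0, 0, 1)| := by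
        rw [abs_mul, abs_mul, abs_mul]
    _ ≤ M * |L (1, 0, 0)| + M * |L (0, 1, 0)| + M * |L (0, 0, 1)| := by gcongr
    _ = (|L (1, 0, 0)| + |L (0, 1, 0)| + |L (0, 0, 1)|) * M := by ring

theorem PSB_diff {F : ℤ → ℝ × ℝ × ℝ → ℝ} (hF : Cl F) (k : ℤ) {p : ℝ × ℝ × ℝ} (hp : p ∈ HH) :
    HasFDerivAt (F k) (fderiv ℝ (F k) p) p := by
  have h1 : ContDiffAt ℝ ∞ (F k) p := (hF.1 k).contDiffAt (PSB_isOpen.mem_nhds hp)
  exact (h1.differentiableAt (by simp)).hasFDerivAt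

/-- local bound for the derivatives -/
theorem PSB_loc (hA : PSA_stmt) (hC : PSC_stmt) {F : ℤ → ℝ × ℝ × ℝ → ℝ} (hF : Cl F)
    {p0 : ℝ × ℝ × ℝ} (hp0 : p0 ∈ HH) : ∃ (r C : ℝ), 0 < r ∧ Metric.ball p0 r ⊆ HH ∧
      ∀ k : ℤ, ∀ p ∈ Metric.ball p0 r, ‖fderiv ℝ (F k) p‖ ≤ C / (1 + (k : ℝ) ^ 2) := by
  obtain ⟨V1, C1, hV1, hp1, hs1, hC1, hb1⟩ := hC _ (hA F hF (1, 0, 0)) p0 hp0
  obtain ⟨V2, C2, hV2, hp2, hs2, hC2, hb2⟩ := hC _ (hA F hF (0, 1, 0)) p0 hp0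
  obtain ⟨V3, C3, hV3, hp3, hs3, hC3, hb3⟩ := hC _ (hA F hF (0, 0, 1)) p0 hp0
  have hV : IsOpen (V1 ∩ V2 ∩ V3) := (hV1.inter hV2).inter hV3
  obtain ⟨r, hr, hsub⟩ := Metric.isOpen_iff.1 hV p0 ⟨⟨hp1, hp2⟩, hp3⟩
  refine ⟨r, C1 + C2 + C3, hr, fun p hp => hs1 (hsub hp).1.1, ?_⟩
  intro k p hp
  have h := hsub hp
  refine (PSB_norm _).trans ?_
  have e1 := hb1 k p h.1.1
  have e2 := hb2 k p h.1.2
  have e3 := hb3 k p h.2
  rw [add_div, add_div]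
  exact add_le_add (add_le_add e1 e2) e3

theorem PSB_sum (hC : PSC_stmt) {F : ℤ → ℝ × ℝ × ℝ → ℝ} (hF : Cl F)
    {p : ℝ × ℝ × ℝ} (hp : p ∈ HH) : Summable (fun k => F k p) := by
  obtain ⟨V, C, -, hpV, -, -, hb⟩ := hC F hF p hp
  refine Summable.of_norm_bounded (PSB_sumC C) ?_
  intro k
  exact hb k p hpV

theorem PSB_fd (hA : PSA_stmt) (hC : PSC_stmt) {F : ℤ → ℝ × ℝ × ℝ → ℝ} (hF : Cl F)
    {p : ℝ × ℝ × ℝ} (hp : p ∈ HH) :
    HasFDerivAt (fun q => ∑' k, F k q) (∑' k, fderiv ℝ (F k) p) p ∧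
    Summable (fun k => fderiv ℝ (F k) p) := by
  obtain ⟨r, C, hr, hsub, hb⟩ := PSB_loc hA hC hF hp
  refine ⟨?_, ?_⟩
  · exact hasFDerivAt_tsum_of_isPreconnected (PSB_sumC C) Metric.isOpen_ball
      (convex_ball p r).isPreconnected
      (fun k q hq => PSB_diff hF k (hsub hq)) hb (Metric.mem_ball_self hr) (PSB_sum hC hF hp)
      (Metric.mem_ball_self hr)
  · exact Summable.of_norm_bounded (PSB_sumC C) (fun k => hb k p (Metric.mem_ball_self hr))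

theorem PSB_dir (hA : PSA_stmt) (hC : PSC_stmt) {F : ℤ → ℝ × ℝ × ℝ → ℝ} (hF : Cl F)
    {p : ℝ × ℝ × ℝ} (hp : p ∈ HH) (v : ℝ × ℝ × ℝ) :
    fderiv ℝ (fun p => ∑' k, F k p) p v = ∑' k, fderiv ℝ (F k) p v := by
  obtain ⟨h1, h2⟩ := PSB_fd hA hC hF hp
  rw [h1.fderiv]
  have h3 := (ContinuousLinearMap.apply ℝ ℝ v).map_tsum h2
  simpa using h3

theorem PSB_smooth (hA : PSA_stmt) (hC : PSC_stmt) (n : ℕ) : ∀ {F : ℤ → ℝ × ℝ × ℝ → ℝ}, Cl F →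
    ContDiffOn ℝ n (fun p => ∑' k, F k p) HH := by
  induction n with
  | zero =>
    intro F hF
    simp only [Nat.cast_zero, contDiffOn_zero]
    intro p hp
    exact (PSB_fd hA hC hF hp).1.continuousAt.continuousWithinAt
  | succ n ih =>
    intro F hF
    have hcast : ((n + 1 : ℕ) : WithTop ℕ∞) = (n : WithTop ℕ∞) + 1 := by push_cast; rfl
    rw [hcast, contDiffOn_succ_iff_fderiv_of_isOpen PSB_isOpen]
    refine ⟨?_, ?_, ?_⟩
    · intro p hp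
      exact (PSB_fd hA hC hF hp).1.differentiableAt.differentiableWithinAt
    · intro h
      exact absurd h (by simp)
    · rw [contDiffOn_clm_apply]
      intro v
      refine (ih (hA F hF v)).congr ?_
      intro p hp
      exact PSB_dir hA hC hF hp v

theorem PSB (hA : PSA_stmt) (hC : PSC_stmt) : PSB_stmt := by
  intro F hF
  refine ⟨?_, fun p hp => PSB_sum hC hF hp, fun p hp v => PSB_dir hA hC hF hp v⟩
  rw [contDiffOn_infty]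
  intro n
  exact PSB_smooth hA hC n hF

end SF
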